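import Pool.Agent.PFE.StmtsE2

/-! Squad PFE, row LYE: the lift exists (assembly). -/

set_option autoImplicit false

namespace Pool.Agent.PFE.H56

open Pool.Agent.PFE Pool.Agent.PFD.D2
open Pool.Agent.PFC.B1 (Sep)

/-- LYE -/
theorem lye (xex : XexStmt) (xrd : XrdStmt) (lfy : LfyStmt) (spy : SpyStmt) (fra : FraStmt)
    (exx : ExxStmt) : LyeStmt := by
  intro R F Γ Γ0 W A X N K Ω Ω' _ _ _ _ c _ _ _ _ _ _ _ _ _ _ _ _ _ _ _ _ _ l G G0 f χ χ0 fl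
    h2 hfy hfw hκ hχ hχ'
  have hl : 1 ≤ l := by omega
  obtain ⟨M, _, _, _, _, BX, FX, hdeg⟩ := xex R Γ W X Ω Ω' l G χ fl.fr.deg hl fl.fr.dg fl.fr.fo
    fl.fr.fo'
  obtain ⟨M0, _, _, _, _, B0, F0, hdeg0⟩ := xex F Γ0 W X Ω Ω' l G0 χ0 fl.fr.deg hl fl.fr.dg
    fl.fr.fo fl.fr.fo'
  obtain ⟨fm⟩ := xrd R F Γ Γ0 W X Ω Ω' M M0 c l G G0 f χ χ0 BX B0 FX F0 hl hfy hfw hκ
    (hdeg.trans hdeg0.symm)
  have lft := lfy R Γ W M X Ω Ω' l G χ BX FX.toYFr c.π h2 hχ hχ'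
  obtain ⟨sp0, hj, hpr⟩ := spy F Γ0 W A M0 X Ω Ω' l G0 χ0 fl.j fl.pr fl.fr B0 F0 hl fl.pr_j
    fl.pr_l fl.pr_r hdeg0.symm
  have sep : Sep Γ0 A K sp0.j.toRingHom := hj ▸ fl.sep
  obtain ⟨A', _, _, _, _, ⟨df⟩⟩ := exx R F Γ Γ0 A M M0 K c f BX B0 fm lft sp0 sep
  obtain ⟨Ω1, Ω1', _, _, _, _, ly⟩ := fra R F Γ Γ0 W A A' X M M0 Ω Ω' c l G χ f BX B0 sp0
    FX.toYFr df hl
  rw [hj, hpr] at ly
  exact ⟨A', _, _, inferInstance, inferInstance, Ω1, Ω1', _, _, _, _, ly⟩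

end Pool.Agent.PFE.H56
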