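import Pool.Agent.PFE.StmtsE2c

/-! Squad PFE, row CAZ: the two Casimir elements of `F V1`. -/

set_option autoImplicit false

namespace Pool.Agent.PFE.H56

open Pool.Agent.PFE

section

variable {F V1 : Type} [Field F] [CommGroup V1] [Fintype V1]

/-- the coefficient of the unit -/
noncomputable def tc : MonoidAlgebra F V1 →ₗ[F] F where
  toFun a := a.coeff 1
  map_add' a b := by rw [MonoidAlgebra.coeff_add, Finsupp.add_apply]
  map_smul' r a := by rw [MonoidAlgebra.coeff_smul, Finsupp.smul_apply, RingHom.id_apply]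

theorem span_of (P : MonoidAlgebra F V1 → Prop)
    (h1 : ∀ v, P (MonoidAlgebra.of F V1 v)) (h2 : ∀ a b, P a → P b → P (a + b))
    (h3 : ∀ (r : F) a, P a → P (r • a)) (a : MonoidAlgebra F V1) : P a := by
  induction a using MonoidAlgebra.induction_on with
  | of v => exact h1 v
  | add a b ha hb => exact h2 a b ha hb
  | smul r a ha => exact h3 r a ha

theorem tc_of (v : V1) [Decidable (v = 1)] :
    tc (MonoidAlgebra.of F V1 v) = if v = 1 then (1 : F) else 0 := by
  unfold tc
  show (MonoidAlgebra.of F V1 v).coeff 1 = _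
  rw [MonoidAlgebra.of_apply, MonoidAlgebra.coeff_single, Finsupp.single_apply]

/-- the first Casimir element -/
theorem cas1 (a : MonoidAlgebra F V1) :
    ∑ v : V1, tc (MonoidAlgebra.of F V1 v⁻¹ * a) • MonoidAlgebra.of F V1 v = a := by
  classical
  refine span_of (fun a => ∑ v : V1, tc (MonoidAlgebra.of F V1 v⁻¹ * a) •
    MonoidAlgebra.of F V1 v = a) ?_ ?_ ?_ a
  · intro w
    rw [Finset.sum_eq_single w]
    · rw [← map_mul, inv_mul_cancel, tc_of, if_pos rfl, one_smul]
    · intro v _ hv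
      rw [← map_mul, tc_of, if_neg, zero_smul]
      intro h
      exact hv (inv_mul_eq_one.1 h)
    · intro h
      exact absurd (Finset.mem_univ _) h
  · intro a b ha hb
    have e : ∀ v : V1, tc (MonoidAlgebra.of F V1 v⁻¹ * (a + b)) • MonoidAlgebra.of F V1 v =
        tc (MonoidAlgebra.of F V1 v⁻¹ * a) • MonoidAlgebra.of F V1 v +
        tc (MonoidAlgebra.of F V1 v⁻¹ * b) • MonoidAlgebra.of F V1 v := by
      intro v
      rw [mul_add, map_add, add_smul]
    rw [Finset.sum_congr rfl fun v _ => e v, Finset.sum_add_distrib, ha, hb]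
  · intro r a ha
    have e : ∀ v : V1, tc (MonoidAlgebra.of F V1 v⁻¹ * (r • a)) • MonoidAlgebra.of F V1 v =
        r • tc (MonoidAlgebra.of F V1 v⁻¹ * a) • MonoidAlgebra.of F V1 v := by
      intro v
      rw [mul_smul_comm, map_smul, smul_eq_mul, mul_smul]
    rw [Finset.sum_congr rfl fun v _ => e v, ← Finset.smul_sum, ha]

theorem cas1' (a : MonoidAlgebra F V1) :
    ∑ v : V1, tc (a * MonoidAlgebra.of F V1 v) • MonoidAlgebra.of F V1 v⁻¹ = a := by
  have h := cas1 a
  rw [← Equiv.sum_comp (Equiv.inv V1)] at h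
  simp only [Equiv.inv_apply, inv_inv] at h
  conv_rhs => rw [← h]
  exact Finset.sum_congr rfl fun v _ => by rw [mul_comm]

variable {l : ℕ} (Y : Y1 F V1 l)

include Y in
theorem co_pow {m k : ℕ} (hm : m < l) (hk : k < l) :
    Y.co k (Y.y ^ m) = if m = k then 1 else 0 := by
  have h := Y.un (fun j => if j = m then 1 else 0) k hk
  have e : ∑ j ∈ Finset.range l, (if j = m then (1 : F) else 0) • Y.y ^ j = Y.y ^ m := by
    rw [Finset.sum_eq_single m]
    · rw [if_pos rfl, one_smul]
    · intro j _ hj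
      rw [if_neg hj, zero_smul]
    · intro h
      exact absurd (Finset.mem_range.2 hm) h
  rw [e] at h
  rw [h]
  exact if_congr eq_comm rfl rfl

/-- the second Casimir element -/
theorem cas2 (hl : 1 ≤ l) (a : MonoidAlgebra F V1) :
    ∑ k ∈ Finset.range l, Y.co (l - 1) (Y.y ^ (l - 1 - k) * a) • Y.y ^ k = a := by
  have key : ∀ m ∈ Finset.range l,
      ∑ k ∈ Finset.range l, Y.co (l - 1) (Y.y ^ (l - 1 - k) * Y.y ^ m) • Y.y ^ k = Y.y ^ m := by
    intro m hm
    rw [Finset.mem_range] at hm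
    rw [Finset.sum_eq_single m]
    · rw [← pow_add, show l - 1 - m + m = l - 1 by omega, co_pow Y (by omega) (by omega),
        if_pos rfl, one_smul]
    · intro k hk hkm
      rw [Finset.mem_range] at hk
      rw [← pow_add]
      by_cases h : l - 1 - k + m < l
      · rw [co_pow Y h (by omega), if_neg (by omega), zero_smul]
      · have e : Y.y ^ (l - 1 - k + m) = 0 := pow_eq_zero_of_le (not_lt.1 h) Y.yl
        rw [e, map_zero, zero_smul]
    · intro h
      exact absurd (Finset.mem_range.2 hm) h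
  conv_rhs => rw [← Y.ex a]
  rw [← Finset.sum_congr rfl fun m hm => congrArg (fun x => Y.co m a • x) (key m hm)]
  simp only [Finset.smul_sum]
  rw [Finset.sum_comm]
  refine Finset.sum_congr rfl fun k _ => ?_
  conv_lhs => rw [← Y.ex a]
  rw [Finset.mul_sum, map_sum, Finset.sum_smul]
  refine Finset.sum_congr rfl fun m _ => ?_
  rw [mul_smul_comm, map_smul, smul_eq_mul, mul_smul]

end

/-- CAZ -/
theorem caz : CazStmt := by
  intro F V1 _ _ _ l Y hl
  obtain ⟨z, hz⟩ : ∃ z : MonoidAlgebra F V1, z = ∑ v : V1, Y.co (l - 1)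
    (MonoidAlgebra.of F V1 v) • MonoidAlgebra.of F V1 v⁻¹ := ⟨_, rfl⟩
  obtain ⟨z', hz'⟩ : ∃ z' : MonoidAlgebra F V1, z' = ∑ k ∈ Finset.range l,
    tc (Y.y ^ k) • Y.y ^ (l - 1 - k) := ⟨_, rfl⟩
  have h1 : ∀ a, tc (z * a) = Y.co (l - 1) a := by
    intro a
    rw [hz, Finset.sum_mul, map_sum]
    conv_rhs => rw [← cas1 a, map_sum]
    refine Finset.sum_congr rfl fun v _ => ?_
    rw [smul_mul_assoc, map_smul, map_smul, smul_eq_mul, smul_eq_mul, mul_comm]
  have h2 : ∀ a, Y.co (l - 1) (z' * a) = tc a := by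
    intro a
    rw [hz', Finset.sum_mul, map_sum]
    conv_rhs => rw [← cas2 Y hl a, map_sum]
    refine Finset.sum_congr rfl fun v _ => ?_
    rw [smul_mul_assoc, map_smul, map_smul, smul_eq_mul, smul_eq_mul, mul_comm]
  have h3 : z * z' = 1 := by
    have h4 : ∀ a, Y.co (l - 1) ((z * z' - 1) * a) = 0 := by
      intro a
      rw [sub_mul, map_sub, one_mul, mul_comm z z', mul_assoc, h2, h1, sub_self]
    have h5 := cas2 Y hl (z * z' - 1)
    have h6 : ∑ k ∈ Finset.range l, Y.co (l - 1) (Y.y ^ (l - 1 - k) * (z * z' - 1)) • Y.y ^ k =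
        0 := by
      refine Finset.sum_eq_zero fun k _ => ?_
      rw [mul_comm, h4, zero_smul]
    rw [h6] at h5
    exact (sub_eq_zero.1 h5.symm)
  refine ⟨z, z', h3, fun M _ _ β => ?_⟩
  have h7 : ∀ k, ∑ v : V1, Y.co (l - 1) (Y.y ^ (l - 1 - k) * MonoidAlgebra.of F V1 v) •
      MonoidAlgebra.of F V1 v⁻¹ = z * Y.y ^ (l - 1 - k) := by
    intro k
    rw [← cas1' (z * Y.y ^ (l - 1 - k))]
    refine Finset.sum_congr rfl fun v _ => ?_
    rw [mul_assoc, h1]
  have h8 : ∀ v : V1, β (MonoidAlgebra.of F V1 v) (MonoidAlgebra.of F V1 v⁻¹) =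
      ∑ k ∈ Finset.range l, β (Y.y ^ k)
        (Y.co (l - 1) (Y.y ^ (l - 1 - k) * MonoidAlgebra.of F V1 v) •
          MonoidAlgebra.of F V1 v⁻¹) := by
    intro v
    conv_lhs => rw [← cas2 Y hl (MonoidAlgebra.of F V1 v)]
    rw [map_sum, LinearMap.sum_apply]
    refine Finset.sum_congr rfl fun k _ => ?_
    rw [map_smul, LinearMap.smul_apply, map_smul]
  rw [Finset.sum_congr rfl fun v _ => h8 v, Finset.sum_comm]
  refine Finset.sum_congr rfl fun k _ => ?_
  rw [← map_sum, h7]

end Pool.Agent.PFE.H56
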