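import Pool.Agent.PFE.StmtsS

/-!
# Squad PFE, row TWL: twisted fixed points and traces, formal rules
-/

set_option autoImplicit false

open scoped BigOperators TensorProduct

noncomputable section

namespace Pool.Agent.PFE.H56

open Pool.Agent.PFC Pool.Agent.PFE

section one

variable {F V V1 A : Type} [Field F] [CommGroup V] [CommGroup V1] [Fintype V1] [Ring A]
  [Algebra F A] (α : V →* A) (i : V1 →* V)

theorem tj_apply (σ : MulAut V1) (v : V1) (a : A) :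
    tj F α i σ v a = α (i v) * (a * α (i (σ v))⁻¹) := rfl

theorem mul_inv' (x : V) : α x * α x⁻¹ = 1 := by
  rw [← map_mul, mul_inv_cancel, map_one]

theorem inv_mul' (x : V) : α x⁻¹ * α x = 1 := by
  rw [← map_mul, inv_mul_cancel, map_one]

theorem mem_Nt (σ : MulAut V1) (a : A) :
    a ∈ Nt F α i σ ↔ ∀ v, α (i v) * a = a * α (i (σ v)) := by
  constructor
  · intro h v
    have h1 : α (i v) * (a * α (i (σ v))⁻¹) = a := h v trivial
    calc α (i v) * a = α (i v) * (a * (α (i (σ v))⁻¹ * α (i (σ v)))) := by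
          rw [inv_mul', mul_one]
      _ = α (i v) * (a * α (i (σ v))⁻¹) * α (i (σ v)) := by simp only [mul_assoc]
      _ = a * α (i (σ v)) := by rw [h1]
  · intro h v _
    change α (i v) * (a * α (i (σ v))⁻¹) = a
    rw [← mul_assoc, h v, mul_assoc, mul_inv', mul_one]

theorem Tr_apply (σ : MulAut V1) (a : A) : Tr F α i σ a = ∑ v, tj F α i σ v a := by
  unfold Tr
  rw [LinearMap.sum_apply]

theorem Tr_mem (σ : MulAut V1) (a : A) : Tr F α i σ a ∈ Nt F α i σ := by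
  intro w _
  rw [Tr_apply, map_sum]
  have h : ∀ v, tj F α i σ w (tj F α i σ v a) = tj F α i σ (w * v) a := by
    intro v
    rw [map_mul]
    rfl
  simp only [h]
  exact Equiv.sum_comp (Equiv.mulLeft w) fun v => tj F α i σ v a

theorem inv_left (τ : MulAut V1) (b : A) (hb : b ∈ Nt F α i τ) (v : V1) :
    α (i v)⁻¹ * b = b * α (i (τ v))⁻¹ := by
  have h := (mem_Nt α i τ b).1 hb v⁻¹
  rwa [map_inv i, map_inv τ, map_inv i] at h

theorem mul_Tr (σ τ : MulAut V1) (a m : A) (ha : a ∈ Nt F α i σ) :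
    a * Tr F α i τ m = Tr F α i (τ * σ) (a * m) := by
  rw [Tr_apply, Tr_apply, Finset.mul_sum, ← Equiv.sum_comp σ.toEquiv]
  refine Finset.sum_congr rfl fun v _ => ?_
  have h := (mem_Nt α i σ a).1 ha v
  change a * (α (i (σ v)) * (m * α (i (τ (σ v)))⁻¹)) = α (i v) * (a * m * α (i (τ (σ v)))⁻¹)
  rw [← mul_assoc, ← h, mul_assoc, mul_assoc]

theorem Tr_mul (σ τ : MulAut V1) (m b : A) (hb : b ∈ Nt F α i τ) :
    Tr F α i σ m * b = Tr F α i (τ * σ) (m * b) := by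
  rw [Tr_apply, Tr_apply, Finset.sum_mul]
  refine Finset.sum_congr rfl fun v _ => ?_
  change α (i v) * (m * α (i (σ v))⁻¹) * b = α (i v) * (m * b * α (i (τ (σ v)))⁻¹)
  have h := inv_left α i τ b hb (σ v)
  simp only [mul_assoc]
  rw [h]

end one

section two

variable {F V V1 : Type} [Field F] [CommGroup V] [CommGroup V1] [Fintype V1] (N X : IA F V)
  (i : V1 →* V) (σ : MulAut V1)

theorem tj_tens : tj F (N.tens X).ι i σ = tns (tj F N.ι i σ) (tj F X.ι i σ) := by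
  refine MonoidHom.ext fun v => ?_
  refine TensorProduct.ext' fun a x => ?_
  change (N.ι (i v) ⊗ₜ[F] X.ι (i v)) *
    ((a ⊗ₜ[F] x) * (N.ι (i (σ v))⁻¹ ⊗ₜ[F] X.ι (i (σ v))⁻¹)) =
    (N.ι (i v) * (a * N.ι (i (σ v))⁻¹)) ⊗ₜ[F] (X.ι (i v) * (x * X.ι (i (σ v))⁻¹))
  rw [Algebra.TensorProduct.tmul_mul_tmul, Algebra.TensorProduct.tmul_mul_tmul]

theorem tj_tens_apply (v : V1) (a : N.A) (x : X.A) :
    tj F (N.tens X).ι i σ v (a ⊗ₜ[F] x : N.A ⊗[F] X.A) =
      (tj F N.ι i σ v a ⊗ₜ[F] tj F X.ι i σ v x : N.A ⊗[F] X.A) := by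
  rw [tj_tens]
  rfl

theorem mem_tens (a : N.A) (x : X.A) (ha : a ∈ Nt F N.ι i σ) (hx : x ∈ Nt F X.ι i σ) :
    (a ⊗ₜ[F] x : N.A ⊗[F] X.A) ∈ Nt F (N.tens X).ι i σ := by
  intro v hv
  have h1 : tj F N.ι i σ v a = a := ha v hv
  have h2 : tj F X.ι i σ v x = x := hx v hv
  rw [tj_tens_apply, h1, h2]

theorem Tr_tens_left (a : N.A) (x : X.A) (ha : a ∈ Nt F N.ι i σ) :
    Tr F (N.tens X).ι i σ (a ⊗ₜ[F] x : N.A ⊗[F] X.A) =
      (a ⊗ₜ[F] Tr F X.ι i σ x : N.A ⊗[F] X.A) := by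
  rw [Tr_apply, Tr_apply]
  refine Eq.trans (Finset.sum_congr rfl fun v _ => ?_) (TensorProduct.tmul_sum a _ _).symm
  have h1 : tj F N.ι i σ v a = a := ha v trivial
  rw [tj_tens_apply, h1]

theorem Tr_tens_right (a : N.A) (x : X.A) (hx : x ∈ Nt F X.ι i σ) :
    Tr F (N.tens X).ι i σ (a ⊗ₜ[F] x : N.A ⊗[F] X.A) =
      (Tr F N.ι i σ a ⊗ₜ[F] x : N.A ⊗[F] X.A) := by
  rw [Tr_apply, Tr_apply]
  refine Eq.trans (Finset.sum_congr rfl fun v _ => ?_) (TensorProduct.sum_tmul _ _ x).symm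
  have h1 : tj F X.ι i σ v x = x := hx v trivial
  rw [tj_tens_apply, h1]

end two

/-- TWL. -/
theorem twl : Pool.Agent.PFE.S.TwlStmt := by
  refine ⟨?_, ?_⟩
  · intro F V V1 A _ _ _ _ _ _ α i
    refine ⟨mem_Nt α i, ?_, ?_, ?_, Tr_mem α i, ?_, ?_⟩
    · intro σ τ a b ha hb
      rw [mem_Nt] at ha hb ⊢
      intro v
      rw [← mul_assoc, ha v, mul_assoc, hb (σ v), mul_assoc]
      rfl
    · rw [mem_Nt]
      intro v
      rw [mul_one, one_mul]
      rfl
    · intro σ v a ha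
      rw [mem_Nt] at ha
      constructor
      · rw [mem_Nt]
        intro w
        rw [← mul_assoc, ← map_mul, mul_comm, map_mul, mul_assoc, ha w, mul_assoc]
      · rw [mem_Nt]
        intro w
        rw [← mul_assoc, ha w, mul_assoc, mul_assoc, ← map_mul, ← map_mul, mul_comm]
    · intro σ τ a m ha
      exact mul_Tr α i σ τ a m ha
    · intro σ τ m b hb
      exact Tr_mul α i σ τ m b hb
  · intro F V V1 _ _ _ _ N X i σ
    exact ⟨tj_tens N X i σ, fun a x ha hx => mem_tens N X i σ a x ha hx,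
      fun a x ha => Tr_tens_left N X i σ a x ha, fun a x hx => Tr_tens_right N X i σ a x hx⟩

end Pool.Agent.PFE.H56
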